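import Pool.Agent.Lib.H87M.Step

/-! # H60L, file P4: from the level `N` to the level `N + 1` by long words (MP_73a90e_al)

Let `K` be a system of level `N + 1` and `x` a word of letters `x_h` in a finite alphabet `A`. For functions `v` of one
letter let `K' (v)` say that the long word `(v (x_h))_h` is known. If the joins of `N` long words are bought then `K'` is a
system of level `N`. -/

set_option autoImplicit false

namespace H60L

open H38S H87M

/-- for systems of level `N` the words `g i (x)` with values in `Z`, `i ∈ I`, generate the word `x` with values in `X` -/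
def GeZ (N : ℕ) (Z X I : Type) : Prop :=
  ∃ g : I → X → Z, ∀ (Ω : Type) (K : Pred Ω), Sys N Ω K →
    ∀ x : Ω → X, (∀ i, K Z fun z => g i (x z)) → K X x

theorem geZ_map {N : ℕ} {Z X Y I : Type} {e : X → Y} (he : Function.Injective e) (h : GeZ N Z Y I) : GeZ N Z X I := by
  obtain ⟨g, h⟩ := h
  exact ⟨fun i w => g i (e w), fun Ω K hK x hx => of_inj hK he (h Ω K hK (fun z => e (x z)) hx)⟩

theorem crM_map {m : ℕ} {X Y I : Type} {e : X → Y} (he : Function.Injective e)
    (h : CrM m Y (fun _ => Set.univ) I) : CrM m X (fun _ => Set.univ) I := by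
  obtain ⟨u, h⟩ := h
  refine ⟨fun t s w => u t s (e w), fun Ω K hK c x _ hx hrel => ?_⟩
  have h1 := h Ω K hK (e c) (fun z s => e (x z s)) (fun _ _ => Set.mem_univ _) (fun l => by
    have h2 := hK.comp _ _ _ (fun (p : Fin m → X) (s : Fin m) => e (p s)) (hx l)
    have e1 : (fun (z : Ω) (s : Fin m) => e (if s = l then c else x z s)) =
        fun z s => if s = l then e c else e (x z s) := by
      funext z s
      by_cases hs : s = l
      · rw [if_pos hs, if_pos hs]
      · rw [if_neg hs, if_neg hs]
    rw [e1] at h2
    exact h2) hrel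
  exact of_inj hK (e := fun (p : Fin m → X) (s : Fin m) => e (p s))
    (fun p q hpq => funext fun s => he (congrFun hpq s)) h1

/-- the functions of one letter of a known long word form a system of the level one less -/
theorem sys_long {N : ℕ} {A L : Type} [Finite A] {IC : Type} {u : IC → Fin N → (L → A) → Bool}
    {Ω : Type} {K : Pred Ω} (hK : Sys (N + 1) Ω K)
    (hu : ∀ (c : L → A) (x : Ω → Fin N → L → A),
      (∀ l, K (Fin N → L → A) fun z i => if i = l then c else x z i) →
      (∀ t, K (Fin N → Bool) fun z s => u t s (x z s)) → K (Fin N → L → A) x)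
    (x : Ω → L → A)
    (hx : ∀ (v : A → Fin N → A) (t : IC), K (Fin N → Bool) fun z s => u t s fun h => v (x z h) s) :
    Sys N A (fun X v => K (L → X) fun z h => v (x z h)) where
  const := fun X v hv => hK.const _ _ fun z z' => funext fun h => hv _ _
  comp := fun X Y v e h => hK.comp _ _ _ (fun (p : L → X) h => e (p h)) h
  rule := by
    intro Z _ c w h
    by_cases hA : Nonempty A
    · obtain ⟨r, hr⟩ : ∃ r : Fin N → Z → A, ∀ i a, w (r i (w a i)) i = w a i := by
        refine ⟨fun i => Function.invFun fun a => w a i, fun i a => ?_⟩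
        exact Function.invFun_eq (f := fun a => w a i) ⟨a, rfl⟩
      obtain ⟨a0⟩ := hA
      have h1 := hu (fun _ => a0) (fun z i h => r i (w (x z h) i)) (fun l => by
        have h2 := hK.comp _ _ _
          (fun (p : L → Fin N → Z) (i : Fin N) => if i = l then (fun _ => a0) else fun h => r i (p h i)) (h l)
        have e : (fun (z : Ω) (i : Fin N) => if i = l then (fun _ => a0) else
            fun h => r i (if i = l then c else w (x z h) i)) =
            fun (z : Ω) (i : Fin N) => if i = l then (fun _ => a0) else fun (h : L) => r i (w (x z h) i) := by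
          funext z i
          by_cases hi : i = l
          · rw [if_pos hi, if_pos hi]
          · rw [if_neg hi, if_neg hi]
            funext h
            rw [if_neg hi]
        rw [e] at h2
        exact h2) (fun t => hx (fun a i => r i (w a i)) t)
      have h3 := hK.comp _ _ _ (fun (p : Fin N → L → A) (h : L) (i : Fin N) => w (p i h) i) h1
      have e : (fun (z : Ω) (h : L) (i : Fin N) => w (r i (w (x z h) i)) i) = fun z h => w (x z h) := by
        funext z h i
        exact hr i _
      rw [e] at h3
      exact h3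
    · exact hK.const _ _ fun z z' => funext fun h => (hA ⟨x z h⟩).elim

/-- A list for the level `N` and the alphabet `A`, and a list for long words of the level `N + 1`, give a list for long
words with letters in `A`, if the joins of `N` long words are bought. -/
theorem ge_step {N : ℕ} {A L Z Z' I0 J IC : Type} [Finite A] {code : (Fin N → Bool) → Z}
    (hcode : Function.Injective code) (h0 : GeZ N Z' A I0) (hJ : GeZ (N + 1) Z (L → Z') J)
    (hC : CrM N (L → A) (fun _ => Set.univ) IC) :
    GeZ (N + 1) Z (L → A) ((I0 × J) ⊕ ((A → Fin N → A) × IC)) := by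
  obtain ⟨g0, h0⟩ := h0
  obtain ⟨g, hg⟩ := hJ
  obtain ⟨u, hu⟩ := hC
  refine ⟨fun s w => s.elim (fun p => g p.2 fun h => g0 p.1 (w h))
    (fun p => code fun s => u p.2 s fun h => p.1 (w h) s), fun Ω K hK x hx => ?_⟩
  have hK' := sys_long (u := u) hK (fun c y h1 h2 => hu Ω K hK c y (fun _ _ => Set.mem_univ _) h1 h2) x
    (fun v t => of_inj hK hcode (hx (Sum.inr (v, t))))
  exact h0 A _ hK' id fun i => hg Ω K hK (fun z h => g0 i (x z h)) fun j => hx (Sum.inl (i, j))

/-- `m` words with values in `{0, 1}^(N - 1)` generate the word of `L` bits in systems of level `N`. -/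
def P (N L m : ℕ) : Prop :=
  ∃ (I : Type) (_ : Fintype I), Fintype.card I = m ∧ GeZ N (Fin (N - 1) → Bool) (Fin L → Bool) I

/-- `c` relations join `m` words of `L` bits in systems of level `m + 1`. -/
def Cr (m L c : ℕ) : Prop :=
  ∃ (I : Type) (_ : Fintype I), Fintype.card I = c ∧ CrM m (Fin L → Bool) (fun _ => Set.univ) I

theorem P_mono {N L L' m : ℕ} (hL : L' ≤ L) (h : P N L m) : P N L' m := by
  obtain ⟨I, hI, hc, h⟩ := h
  refine ⟨I, hI, hc, geZ_map (e := fun (w : Fin L' → Bool) (t : Fin L) => if ht : (t : ℕ) < L' then w ⟨t, ht⟩ else false)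
    (fun w w' hw => funext fun t => ?_) h⟩
  have h1 := congrFun hw (Fin.castLE hL t)
  simpa using h1

theorem exists_inj {a b c : ℕ} (h : a * b ≤ c) :
    ∃ e : (Fin b → Fin a → Bool) → Fin c → Bool, Function.Injective e := by
  obtain ⟨e⟩ := Function.Embedding.nonempty_of_card_le (α := Fin b → Fin a → Bool) (β := Fin c → Bool) (by
    simp only [Fintype.card_fun, Fintype.card_fin, Fintype.card_bool]
    rw [← pow_mul]
    exact Nat.pow_le_pow_right (by norm_num) h)
  exact ⟨e, e.injective⟩

theorem exists_inj' {a b c : ℕ} (h : c ≤ a * b) :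
    ∃ e : (Fin c → Bool) → Fin b → Fin a → Bool, Function.Injective e := by
  obtain ⟨e⟩ := Function.Embedding.nonempty_of_card_le (α := Fin c → Bool) (β := Fin b → Fin a → Bool) (by
    simp only [Fintype.card_fun, Fintype.card_fin, Fintype.card_bool]
    rw [← pow_mul]
    exact Nat.pow_le_pow_right (by norm_num) h)
  exact ⟨e, e.injective⟩

/-- The recursion: `β = N - 1` is the number of bits of the words in the lists for the level `N`; `W` depends only on `N`
and on `β * q`. -/
theorem P_rec {N : ℕ} (q l a m c : ℕ) (h0 : P N ((N - 1) * q) a) (hJ : P (N + 1) ((N - 1) * l) m)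
    (hC : Cr N ((N - 1) * q * l) c) :
    P (N + 1) ((N - 1) * q * l)
      (a * m + Fintype.card ((Fin ((N - 1) * q) → Bool) → Fin N → Fin ((N - 1) * q) → Bool) * c) := by
  classical
  obtain ⟨I0, _, ha, h0⟩ := h0
  obtain ⟨J, _, hm, hJ⟩ := hJ
  obtain ⟨IC, _, hc, hC⟩ := hC
  obtain ⟨e1, he1⟩ := exists_inj (a := N - 1) (b := l) (c := (N - 1) * l) le_rfl
  obtain ⟨e2, he2⟩ := exists_inj (a := (N - 1) * q) (b := l) (c := (N - 1) * q * l) le_rfl
  obtain ⟨e3, he3⟩ := exists_inj' (a := (N - 1) * q) (b := l) (c := (N - 1) * q * l) le_rfl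
  have h := ge_step (code := fun p : Fin N → Bool => p) (fun _ _ h => h) h0 (geZ_map he1 hJ) (crM_map he2 hC)
  refine ⟨_, inferInstance, ?_, geZ_map he3 h⟩
  rw [Fintype.card_sum, Fintype.card_prod, Fintype.card_prod, ha, hm, hc]

end H60L
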